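import Mathlib.Logic.Equiv.Fin.Basic
import Mathlib.Data.ENat.Lattice
import Mathlib.Order.CompletePartialOrder

set_option autoImplicit false

namespace Pool.Agent.MP_0fd9b9_co

/-- A finite permutation: a size `n` and a bijection of `Fin n` (position to value). -/
abbrev FPerm : Type := Σ n : ℕ, Equiv.Perm (Fin n)

/-- `f` lists, left to right, entries of `τ` whose values are order-isomorphic to `σ`. -/
def IsOcc (σ τ : FPerm) (f : Fin σ.1 → Fin τ.1) : Prop :=
  StrictMono f ∧ ∀ i j, σ.2 i < σ.2 j ↔ τ.2 (f i) < τ.2 (f j)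

/-- The class of permutations avoiding `σ`. -/
def Av (σ : FPerm) : Set FPerm := {τ | ¬ ∃ f, IsOcc σ τ f}

/-- The direct sum: `α` followed by `β` shifted up by the size of `α`. -/
def dsum (α β : FPerm) : FPerm :=
  ⟨α.1 + β.1, finSumFinEquiv.permCongr (Equiv.Perm.sumCongr α.2 β.2)⟩

/-- The permutation of size one. -/
def onePerm : FPerm := ⟨1, 1⟩

/-- Nonempty and not a direct sum of two nonempty permutations. -/
def SumIndec (σ : FPerm) : Prop :=
  0 < σ.1 ∧ ¬ ∃ α β : FPerm, 0 < α.1 ∧ 0 < β.1 ∧ σ = dsum α β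

/-- The merge of a family of classes: the entries can be coloured by the index set so that
the entries of colour `i` form a pattern lying in `C i`. -/
def merge {ι : Type} (C : ι → Set FPerm) : Set FPerm :=
  {τ | ∃ c : Fin τ.1 → ι, ∀ i, ∃ ρ ∈ C i, ∃ f, IsOcc ρ τ f ∧ Set.range f = {x | c x = i}}

/-- `(σ; σs 0, …, σs (k-1))` is admissible of size `n`. -/
def Admissible (n : ℕ) (σ : FPerm) (k : ℕ) (σs : Fin k → FPerm) : Prop :=
  SumIndec σ ∧ (∀ i, SumIndec (σs i)) ∧ σ.1 = n ∧ Av σ ⊆ merge (fun i => Av (σs i))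

/-- The least `q ≥ 1` such that `q` copies of each `Av (1 ⊕ σs i)` split `Av (1 ⊕ σ)`
(`⊤` if there is none). -/
noncomputable def qstar (σ : FPerm) (k : ℕ) (σs : Fin k → FPerm) : ℕ∞ :=
  ⨅ (q : ℕ) (_ : 1 ≤ q ∧
    Av (dsum onePerm σ) ⊆ merge (fun p : Fin q × Fin k => Av (dsum onePerm (σs p.2)))), (q : ℕ∞)

/-- The supremum of `qstar` over all admissible tuples of size `n`. -/
noncomputable def Qsup (n : ℕ) : ℕ∞ :=
  ⨆ (σ : FPerm) (k : ℕ) (σs : Fin k → FPerm) (_ : Admissible n σ k σs), qstar σ k σs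

end Pool.Agent.MP_0fd9b9_co
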