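import Mathlib.Tactic.Linarith.Frontend
import Mathlib.Tactic.NormNum.Ineq
import Mathlib.Order.Interval.Finset.Fin
import Mathlib.Data.Finset.Sort
import Mathlib.Data.Int.ConditionallyCompleteOrder
import Mathlib.Data.Int.Star
import Mathlib.Algebra.Order.Ring.Star
import Mathlib.Tactic.Algebra.Basic
import Pool.Agent.MP_0fd9b9_co.Defs

-- ======== part 0: formerly Pool.Agent.MP_0fd9b9_co.Pillar
section MrgPart0

set_option autoImplicit false

namespace Pool.Agent.MP_0fd9b9_co

open Finset

/-- `[u, v)` can be cut into at most `t` consecutive pieces, each satisfying `ok`. -/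
def LCut (ok : ℕ → ℕ → Prop) : ℕ → ℕ → ℕ → Prop
  | 0, _, _ => False
  | t + 1, u, v => ok u v ∨ ∃ c, u < c ∧ c < v ∧ ok u c ∧ LCut ok t c v

lemma LCut.mono_ok {ok ok' : ℕ → ℕ → Prop} :
    ∀ {t u v : ℕ}, (∀ u' v', u ≤ u' → v' ≤ v → ok u' v' → ok' u' v') →
      LCut ok t u v → LCut ok' t u v
  | 0, _, _, _, h => h
  | t + 1, u, v, hk, h => by
    rcases h with h | ⟨c, h1, h2, h3, h4⟩
    · exact Or.inl (hk u v le_rfl le_rfl h)
    · refine Or.inr ⟨c, h1, h2, hk u c le_rfl h2.le h3, ?_⟩
      exact LCut.mono_ok (fun u' v' hu hv => hk u' v' (h1.le.trans hu) hv) h4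

lemma LCut.succ {ok : ℕ → ℕ → Prop} :
    ∀ {t u v : ℕ}, LCut ok t u v → LCut ok (t + 1) u v
  | 0, _, _, h => h.elim
  | t + 1, u, v, h => by
    rcases h with h | ⟨c, h1, h2, h3, h4⟩
    · exact Or.inl h
    · exact Or.inr ⟨c, h1, h2, h3, LCut.succ h4⟩

lemma LCut.mono_t {ok : ℕ → ℕ → Prop} {t t' u v : ℕ} (htt : t ≤ t') (h : LCut ok t u v) :
    LCut ok t' u v := by
  induction htt with
  | refl => exact h
  | step _ ih => exact ih.succ

lemma LCut.split {ok : ℕ → ℕ → Prop} (t2 : ℕ) :
    ∀ (t1 : ℕ) {u v : ℕ}, LCut ok (t2 + t1 + 1) u v →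
      LCut ok (t1 + 1) u v ∨ ∃ c, u < c ∧ c < v ∧ LCut ok (t1 + 1) u c ∧ LCut ok t2 c v
  | 0, u, v, h => by
    rcases h with h | ⟨c, h1, h2, h3, h4⟩
    · exact Or.inl (Or.inl h)
    · exact Or.inr ⟨c, h1, h2, Or.inl h3, h4⟩
  | t1 + 1, u, v, h => by
    rcases h with h | ⟨c, h1, h2, h3, h4⟩
    · exact Or.inl (Or.inl h)
    · rcases LCut.split t2 t1 h4 with h5 | ⟨c', g1, g2, g3, g4⟩
      · exact Or.inl (Or.inr ⟨c, h1, h2, h3, h5⟩)
      · exact Or.inr ⟨c', h1.trans g1, g2, Or.inr ⟨c, h1, g1, h3, g3⟩, g4⟩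

/-- Greedy cutting: if `t + 1` pieces of weight at most `m` do not suffice, there are `t + 1`
consecutive pieces of weight at least `m`. -/
lemma greedy (d : ℕ → ℕ → ℕ) (m : ℕ) (hm : 1 ≤ m) (h0 : ∀ u c, c ≤ u → d u c = 0)
    (hstep : ∀ u c, d u (c + 1) ≤ d u c + 1) (v : ℕ) :
    ∀ (t u : ℕ), ¬ LCut (fun u v => d u v ≤ m) (t + 1) u v →
      ∃ s : ℕ → ℕ, s 0 = u ∧ Monotone s ∧ s (t + 1) ≤ v ∧ ∀ i ≤ t, m ≤ d (s i) (s (i + 1))
  | 0, u, h => by
    have h1 : m < d u v := by
      by_contra hc
      exact h (Or.inl (not_lt.mp hc))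
    have huv : u ≤ v := by
      by_contra hc
      have := h0 u v (not_le.mp hc).le
      omega
    refine ⟨fun i => if i = 0 then u else v, by simp, ?_, by simp, ?_⟩
    · intro i j hij
      by_cases hi : i = 0 <;> by_cases hj : j = 0 <;> simp [hi, hj, huv]
      omega
    · intro i hi
      have : i = 0 := by omega
      subst this
      simpa using h1.le
  | t + 1, u, h => by
    have h1 : m < d u v := by
      by_contra hc
      exact h (Or.inl (not_lt.mp hc))
    have hex : ∃ c, m < d u c := ⟨v, h1⟩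
    classical
    have hc1 : m < d u (Nat.find hex) := Nat.find_spec hex
    have hcv : Nat.find hex ≤ v := Nat.find_min' hex h1
    have hpos : Nat.find hex ≠ 0 := by
      intro h0'
      rw [h0', h0 u 0 (Nat.zero_le _)] at hc1
      omega
    obtain ⟨c, hc⟩ := Nat.exists_eq_succ_of_ne_zero hpos
    have hc2 : ¬ m < d u c := Nat.find_min hex (by omega)
    rw [hc] at hc1 hcv
    have hc3 : m ≤ d u c := by
      have := hstep u c
      simp only [Nat.succ_eq_add_one] at hc1
      omega
    have huc : u < c := by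
      by_contra hcon
      have := h0 u c (not_lt.mp hcon)
      omega
    have hn : ¬ LCut (fun u v => d u v ≤ m) (t + 1) c v := by
      intro hl
      exact h (Or.inr ⟨c, huc, by omega, not_lt.mp hc2, hl⟩)
    obtain ⟨s, s0, smono, sv, sd⟩ := greedy d m hm h0 hstep v t c hn
    refine ⟨fun i => if i = 0 then u else s (i - 1), by simp, ?_, by simpa using sv, ?_⟩
    · intro i j hij
      by_cases hi : i = 0 <;> by_cases hj : j = 0
      · simp [hi, hj]
      · simp only [hi, hj, if_true, if_false]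
        have := smono (Nat.zero_le (j - 1))
        omega
      · omega
      · simp only [hi, hj, if_false]
        exact smono (by omega)
    · intro i hi
      by_cases hi0 : i = 0
      · subst hi0
        simpa [s0] using hc3
      · have := sd (i - 1) (by omega)
        have e : i - 1 + 1 = i := by omega
        simpa [hi0, e] using this

lemma exists_blocks (T : Finset ℕ) (n w : ℕ) (h : n * (w + 1) ≤ T.card) :
    ∃ g : Fin n → Fin (w + 1) → ℕ, (∀ k j, g k j ∈ T) ∧ (∀ k, Function.Injective (g k)) ∧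
      ∀ k k' j j', k < k' → g k j < g k' j' := by
  have hb : ∀ (k : Fin n) (j : Fin (w + 1)), (k : ℕ) * (w + 1) + j < n * (w + 1) := by
    intro k j
    have h1 := k.2
    have h2 := j.2
    nlinarith
  let e := T.orderEmbOfCardLe h
  refine ⟨fun k j => e ⟨k * (w + 1) + j, hb k j⟩, ?_, ?_, ?_⟩
  · intro k j
    exact T.orderEmbOfCardLe_mem h _
  · intro k j j' hjj
    have := e.injective hjj
    simp only [Fin.mk.injEq] at this
    exact Fin.ext (by omega)
  · intro k k' j j' hk
    apply e.strictMono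
    simp only [Fin.mk_lt_mk]
    have h1 : (k : ℕ) + 1 ≤ k' := hk
    have h2 := j.2
    nlinarith

lemma hit (R Ri : Finset ℕ) (m w : ℕ) (hsub : Ri ⊆ R) (hm : m ≤ Ri.card) (hR : R.card ≤ m + w)
    (g : Fin (w + 1) → ℕ) (hg : Function.Injective g) (hgR : ∀ j, g j ∈ R) : ∃ j, g j ∈ Ri := by
  by_contra hcon
  push Not at hcon
  have hdisj : Disjoint Ri (univ.image g) := by
    rw [Finset.disjoint_right]
    intro x hx
    obtain ⟨j, _, rfl⟩ := mem_image.mp hx
    exact hcon j
  have hcard : (univ.image g).card = w + 1 := by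
    rw [card_image_of_injective _ hg]
    simp
  have hsub' : Ri ∪ univ.image g ⊆ R := by
    apply union_subset hsub
    intro x hx
    obtain ⟨j, _, rfl⟩ := mem_image.mp hx
    exact hgR j
  have := card_le_card hsub'
  rw [card_union_of_disjoint hdisj, hcard] at this
  omega

section arcs

variable {X : Type} [Fintype X] (l r : X → ℕ)

/-- Arcs with exactly one end in the arch `[a, b)`, that end lying in `[u, v)`. -/
def extArcs (a b u v : ℕ) : Finset X :=
  univ.filter (fun x => (l x < a ∧ u ≤ r x ∧ r x < v) ∨ (u ≤ l x ∧ l x < v ∧ b ≤ r x))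

/-- The number of pillars seen from `[u, v)`. -/
def degr (lab : X → ℕ) (a b u v : ℕ) : ℕ := ((extArcs l r a b u v).image lab).card

/-- The pillars of the arcs leaving the arch are ordered like their outer ends. -/
structure Good (lab : X → ℕ) (a b : ℕ) : Prop where
  left_le : ∀ x, l x < a → a ≤ r x → r x < b → lab x ≤ a
  right_ge : ∀ x, a ≤ l x → l x < b → b ≤ r x → b ≤ lab x
  left_mono : ∀ x y, l x < a → a ≤ r x → r x < b → l y < a → a ≤ r y → r y < b →
    l x ≤ l y → lab x ≤ lab y
  right_mono : ∀ x y, a ≤ l x → l x < b → b ≤ r x → a ≤ l y → l y < b → b ≤ r y →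
    r x ≤ r y → lab x ≤ lab y

lemma mem_extArcs {a b u v : ℕ} {x : X} : x ∈ extArcs l r a b u v ↔
    (l x < a ∧ u ≤ r x ∧ r x < v) ∨ (u ≤ l x ∧ l x < v ∧ b ≤ r x) := by
  simp [extArcs]

lemma degr_zero (lab : X → ℕ) (a b u c : ℕ) (h : c ≤ u) : degr l r lab a b u c = 0 := by
  unfold degr
  rw [card_eq_zero, image_eq_empty, eq_empty_iff_forall_notMem]
  intro x hx
  rw [mem_extArcs] at hx
  omega

lemma degr_step (hl : Function.Injective l) (hr : Function.Injective r) (hlr : ∀ x y, l x ≠ r y)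
    (lab : X → ℕ) (a b u c : ℕ) :
    degr l r lab a b u (c + 1) ≤ degr l r lab a b u c + 1 := by
  classical
  unfold degr
  have h1 : (univ.filter (fun x => l x = c ∨ r x = c)).card ≤ 1 := by
    rw [card_le_one]
    intro x hx y hy
    simp only [mem_filter, mem_univ, true_and] at hx hy
    rcases hx with hx | hx <;> rcases hy with hy | hy
    · exact hl (hx.trans hy.symm)
    · exact (hlr x y (hx.trans hy.symm)).elim
    · exact (hlr y x (hy.trans hx.symm)).elim
    · exact hr (hx.trans hy.symm)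
  have h2 : extArcs l r a b u (c + 1) ⊆
      extArcs l r a b u c ∪ univ.filter (fun x => l x = c ∨ r x = c) := by
    intro x hx
    rw [mem_union, mem_extArcs]
    rw [mem_extArcs] at hx
    simp only [mem_filter, mem_univ, true_and]
    omega
  calc ((extArcs l r a b u (c + 1)).image lab).card
      ≤ ((extArcs l r a b u c ∪ univ.filter (fun x => l x = c ∨ r x = c)).image lab).card :=
        card_le_card (image_subset_image h2)
    _ ≤ ((extArcs l r a b u c).image lab).card +
          ((univ.filter (fun x => l x = c ∨ r x = c)).image lab).card := by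
        rw [image_union]; exact card_union_le _ _
    _ ≤ _ := by
        have := card_image_le (s := univ.filter (fun x => l x = c ∨ r x = c)) (f := lab)
        omega

lemma extArcs_mono {a b u v u' v' : ℕ} (hu : u ≤ u') (hv : v' ≤ v) :
    extArcs l r a b u' v' ⊆ extArcs l r a b u v := by
  intro x hx
  rw [mem_extArcs] at hx ⊢
  omega

lemma degr_mono (lab : X → ℕ) {a b u v u' v' : ℕ} (hu : u ≤ u') (hv : v' ≤ v) :
    degr l r lab a b u' v' ≤ degr l r lab a b u v :=
  card_le_card (image_subset_image (extArcs_mono l r hu hv))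

/-- No `n` arcs through a common point form the pattern `p`. -/
def Avoids {n : ℕ} (p : Equiv.Perm (Fin n)) : Prop :=
  ∀ c, ¬ ∃ f : Fin n → X, (∀ i, l (f i) < c ∧ c ≤ r (f i)) ∧
    (∀ i j, i < j → r (f i) < r (f j)) ∧ ∀ i j, p i < p j → l (f j) < l (f i)

/-- The key lemma: an arch of degree at most `m + w` can be cut into at most `n` pieces of
degree at most `m`. -/
lemma key_cut (hl : Function.Injective l) (hr : Function.Injective r) (hlr : ∀ x y, l x ≠ r y)
    {n : ℕ} (hn : 1 ≤ n) (p : Equiv.Perm (Fin n)) (hav : Avoids l r p)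
    (m w : ℕ) (hm : m + 1 = 2 * (n * (w + 1))) (lab : X → ℕ) (a b : ℕ) (hab : a < b)
    (hg : Good l r lab a b) (hd : degr l r lab a b a b ≤ m + w) :
    LCut (fun u v => degr l r lab a b u v ≤ m) n a b := by
  classical
  by_contra hcon
  obtain ⟨t, rfl⟩ : ∃ t, n = t + 1 := ⟨n - 1, by omega⟩
  have hm1 : 1 ≤ m := by nlinarith
  obtain ⟨s, s0, smono, sv, sd⟩ := greedy (degr l r lab a b) m hm1 (degr_zero l r lab a b)
    (degr_step l r hl hr hlr lab a b) b t a hcon
  set R := (extArcs l r a b a b).image lab with hR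
  have hsa : ∀ i, a ≤ s i := fun i => s0 ▸ smono (Nat.zero_le i)
  have hsb : ∀ i : Fin (t + 1), s (i + 1) ≤ b := fun i =>
    (smono (by have := i.2; omega)).trans sv
  have hsub : ∀ i : Fin (t + 1), (extArcs l r a b (s i) (s (i + 1))).image lab ⊆ R := fun i =>
    image_subset_image (extArcs_mono l r (hsa i) (hsb i))
  have hcard : ∀ i : Fin (t + 1), m ≤ ((extArcs l r a b (s i) (s (i + 1))).image lab).card :=
    fun i => sd i (by have := i.2; omega)
  have hRm : m ≤ R.card := (hcard 0).trans (card_le_card (hsub 0))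
  have hsplit := card_filter_add_card_filter_not (s := R) (fun y => y ≤ a)
  have hpick : ∀ (T : Finset ℕ), T ⊆ R → (t + 1) * (w + 1) ≤ T.card →
      ∃ F : Fin (t + 1) → Fin (t + 1) → X,
        (∀ i k : Fin (t + 1), F i k ∈ extArcs l r a b (s i) (s (i + 1)) ∧ lab (F i k) ∈ T) ∧
        ∀ i k i' k', k < k' → lab (F i k) < lab (F i' k') := by
    intro T hT hTc
    obtain ⟨g, g1, g2, g3⟩ := exists_blocks T (t + 1) w hTc
    have : ∀ i k : Fin (t + 1), ∃ x, x ∈ extArcs l r a b (s i) (s (i + 1)) ∧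
        ∃ j, lab x = g k j := by
      intro i k
      obtain ⟨j, hj⟩ := hit R _ m w (hsub i) (hcard i) hd (g k) (g2 k) (fun j => hT (g1 k j))
      obtain ⟨x, hx, hx'⟩ := mem_image.mp hj
      exact ⟨x, hx, j, hx'⟩
    choose F hF j hj using this
    refine ⟨F, fun i k => ⟨hF i k, hj i k ▸ g1 k _⟩, ?_⟩
    intro i k i' k' hk
    rw [hj, hj]
    exact g3 _ _ _ _ hk
  by_cases hside : (t + 1) * (w + 1) ≤ (R.filter (fun y => y ≤ a)).card
  · obtain ⟨F, hF, hlt⟩ := hpick _ (filter_subset _ _) hside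
    have hleft : ∀ i k : Fin (t + 1), l (F i k) < a ∧ s i ≤ r (F i k) ∧ r (F i k) < s (i + 1) := by
      intro i k
      obtain ⟨h1, h2⟩ := hF i k
      rw [mem_extArcs] at h1
      rcases h1 with h1 | h1
      · exact h1
      · have h3 := (mem_filter.mp h2).2
        have := hg.right_ge (F i k) ((hsa i).trans h1.1) (h1.2.1.trans_le (hsb i)) h1.2.2
        omega
    apply hav a
    refine ⟨fun i => F i (p i).rev, fun i => ⟨(hleft i _).1, (hsa i).trans (hleft i _).2.1⟩,
      ?_, ?_⟩
    · intro i j hij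
      have h1 := hleft i (p i).rev
      have h2 := hleft j (p j).rev
      have h3 : s (i + 1) ≤ s j := smono (by have : (i : ℕ) < j := hij; omega)
      show r (F i (p i).rev) < r (F j (p j).rev)
      omega
    · intro i j hij
      have h1 := hleft i (p i).rev
      have h2 := hleft j (p j).rev
      have h3 := hlt j (p j).rev i (p i).rev (Fin.rev_lt_rev.mpr hij)
      by_contra hc
      have := hg.left_mono (F i (p i).rev) (F j (p j).rev) h1.1 ((hsa i).trans h1.2.1)
        (h1.2.2.trans_le (hsb i)) h2.1 ((hsa j).trans h2.2.1) (h2.2.2.trans_le (hsb j))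
        (not_lt.mp hc)
      omega
  · have hside' : (t + 1) * (w + 1) ≤ (R.filter (fun y => ¬ y ≤ a)).card := by omega
    obtain ⟨F, hF, hlt⟩ := hpick _ (filter_subset _ _) hside'
    have hright : ∀ i k : Fin (t + 1), s i ≤ l (F i k) ∧ l (F i k) < s (i + 1) ∧ b ≤ r (F i k) := by
      intro i k
      obtain ⟨h1, h2⟩ := hF i k
      rw [mem_extArcs] at h1
      rcases h1 with h1 | h1
      · have h3 := (mem_filter.mp h2).2
        have := hg.left_le (F i k) h1.1 ((hsa i).trans h1.2.1) (h1.2.2.trans_le (hsb i))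
        omega
      · exact h1
    apply hav b
    refine ⟨fun i => F (p i).rev i,
      fun i => ⟨(hright _ i).2.1.trans_le (hsb _), (hright _ i).2.2⟩, ?_, ?_⟩
    · intro i j hij
      have h1 := hright (p i).rev i
      have h2 := hright (p j).rev j
      have h3 := hlt (p i).rev i (p j).rev j hij
      by_contra hc
      have := hg.right_mono (F (p j).rev j) (F (p i).rev i) ((hsa _).trans h2.1)
        (h2.2.1.trans_le (hsb _)) h2.2.2 ((hsa _).trans h1.1) (h1.2.1.trans_le (hsb _)) h1.2.2
        (not_lt.mp hc)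
      omega
    · intro i j hij
      have h1 := hright (p i).rev i
      have h2 := hright (p j).rev j
      have h4 : (p j).rev < (p i).rev := Fin.rev_lt_rev.mpr hij
      have h3 : s ((p j).rev + 1) ≤ s (p i).rev :=
        smono (by have : (((p j).rev : Fin (t + 1)) : ℕ) < (p i).rev := h4; omega)
      show l (F (p j).rev j) < l (F (p i).rev i)
      omega

/-- What the pillars and colours of the arcs inside the arch `[a, b)` must satisfy. -/
def Done (C : ℕ) (lab : X → ℕ) (γ : ℕ → ℕ) (a b : ℕ) : Prop :=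
  ∃ lab' col' : X → ℕ,
    (∀ x, a ≤ l x → r x < b → l x < lab' x ∧ lab' x ≤ r x ∧ col' x < C) ∧
    (∀ x y, a ≤ l x → r y < b → l x < l y → l y < r x → r x < r y → col' x = col' y →
      lab' x = lab' y) ∧
    (∀ x y, a ≤ l x → r x < b → ¬ (a ≤ l y ∧ r y < b) →
      ((l x < l y ∧ l y < r x) ∨ (l x < r y ∧ r y < r x)) → col' x ≠ γ (lab y))

/-- The assignment after a new pillar `c` is put into the arch `[a, b)`. -/
def newLab (lab : X → ℕ) (a b c : ℕ) (x : X) : ℕ :=
  if a ≤ l x ∧ r x < b ∧ l x < c ∧ c ≤ r x then c else lab x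

omit [Fintype X] in
lemma good_left {lab : X → ℕ} {a b c : ℕ} (hcb : c < b) (hg : Good l r lab a b) :
    Good l r (newLab l r lab a b c) a c := by
  refine ⟨?_, ?_, ?_, ?_⟩
  · intro x h1 h2 h3
    have := hg.left_le x h1 h2 (by omega)
    unfold newLab
    split_ifs <;> omega
  · intro x h1 h2 h3
    unfold newLab
    split_ifs with h
    · exact le_rfl
    · have := hg.right_ge x h1 (by omega) (by omega)
      omega
  · intro x y h1 h2 h3 h4 h5 h6 h7
    have := hg.left_mono x y h1 h2 (by omega) h4 h5 (by omega) h7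
    unfold newLab
    split_ifs <;> omega
  · intro x y h1 h2 h3 h4 h5 h6 h7
    unfold newLab
    split_ifs with h h' h'
    · exact le_rfl
    · have := hg.right_ge y h4 (by omega) (by omega)
      omega
    · omega
    · exact hg.right_mono x y h1 (by omega) (by omega) h4 (by omega) (by omega) h7

omit [Fintype X] in
lemma good_right {lab : X → ℕ} {a b c : ℕ} (hac : a < c) (hg : Good l r lab a b) :
    Good l r (newLab l r lab a b c) c b := by
  refine ⟨?_, ?_, ?_, ?_⟩
  · intro x h1 h2 h3
    unfold newLab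
    split_ifs with h
    · exact le_rfl
    · have := hg.left_le x (by omega) (by omega) h3
      omega
  · intro x h1 h2 h3
    have := hg.right_ge x (by omega) h2 h3
    unfold newLab
    split_ifs <;> omega
  · intro x y h1 h2 h3 h4 h5 h6 h7
    unfold newLab
    split_ifs with h h' h'
    · exact le_rfl
    · omega
    · have := hg.left_le x (by omega) (by omega) h3
      omega
    · exact hg.left_mono x y (by omega) (by omega) h3 (by omega) (by omega) h6 h7
  · intro x y h1 h2 h3 h4 h5 h6 h7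
    have := hg.right_mono x y (by omega) h2 h3 (by omega) h5 h6 h7
    unfold newLab
    split_ifs <;> omega

lemma degr_left (lab : X → ℕ) {a b c u v : ℕ} (hu : a ≤ u) (hv : v ≤ c) :
    degr l r (newLab l r lab a b c) a c u v ≤ degr l r lab a b u v + 1 := by
  unfold degr
  refine le_trans (card_le_card ?_) (card_insert_le c _)
  intro y hy
  obtain ⟨x, hx, rfl⟩ := mem_image.mp hy
  rw [mem_extArcs] at hx
  unfold newLab
  split_ifs with h
  · exact mem_insert_self _ _
  · refine mem_insert_of_mem (mem_image_of_mem _ ?_)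
    rw [mem_extArcs]
    omega

lemma degr_right (lab : X → ℕ) {a b c u v : ℕ} (hu : c ≤ u) (hv : v ≤ b) :
    degr l r (newLab l r lab a b c) c b u v ≤ degr l r lab a b u v + 1 := by
  unfold degr
  refine le_trans (card_le_card ?_) (card_insert_le c _)
  intro y hy
  obtain ⟨x, hx, rfl⟩ := mem_image.mp hy
  rw [mem_extArcs] at hx
  unfold newLab
  split_ifs with h
  · exact mem_insert_self _ _
  · refine mem_insert_of_mem (mem_image_of_mem _ ?_)
    rw [mem_extArcs]
    omega

lemma done_step (hlt : ∀ x, l x < r x) {C : ℕ} {lab : X → ℕ} {γ : ℕ → ℕ} {a b c : ℕ}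
    (hac : a < c) (hcb : c < b) (hg : Good l r lab a b) (hd : degr l r lab a b a b < C)
    (h1 : ∀ γ', Done l r C (newLab l r lab a b c) γ' a c)
    (h2 : ∀ γ', Done l r C (newLab l r lab a b c) γ' c b) : Done l r C lab γ a b := by
  classical
  have hcard : (((extArcs l r a b a b).image lab).image γ).card < (range C).card := by
    rw [card_range]
    exact card_image_le.trans_lt hd
  obtain ⟨g0, hg0, hg0'⟩ := exists_mem_notMem_of_card_lt_card hcard
  rw [mem_range] at hg0
  obtain ⟨lab1, col1, a1, a2, a3⟩ := h1 (Function.update γ c g0)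
  obtain ⟨lab2, col2, b1, b2, b3⟩ := h2 (Function.update γ c g0)
  have hnew : ∀ y, a ≤ l y → r y < b → l y < c → c ≤ r y →
      Function.update γ c g0 (newLab l r lab a b c y) = g0 := by
    intro y y1 y2 y3 y4
    unfold newLab
    rw [if_pos ⟨y1, y2, y3, y4⟩, Function.update_self]
  have hold : ∀ y, y ∈ extArcs l r a b a b →
      Function.update γ c g0 (newLab l r lab a b c y) = γ (lab y) := by
    intro y hy
    rw [mem_extArcs] at hy
    unfold newLab
    rw [if_neg (by omega), Function.update_of_ne]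
    rcases hy with hy | hy
    · have := hg.left_le y hy.1 hy.2.1 hy.2.2
      omega
    · have := hg.right_ge y hy.1 hy.2.1 hy.2.2
      omega
  refine ⟨fun x => if r x < c then lab1 x else if c ≤ l x then lab2 x else c,
    fun x => if r x < c then col1 x else if c ≤ l x then col2 x else g0, ?_, ?_, ?_⟩
  · intro x x1 x2
    dsimp only
    split_ifs with e1 e2
    · exact a1 x x1 e1
    · exact b1 x e2 x2
    · omega
  · intro x y x1 y2 e1 e2 e3
    have hx := hlt x
    have hy := hlt y
    dsimp only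
    by_cases c1 : r x < c
    · by_cases c2 : r y < c
      · rw [if_pos c1, if_pos c2, if_pos c1, if_pos c2]
        exact a2 x y x1 c2 e1 e2 e3
      · have c3 : ¬ c ≤ l y := by omega
        rw [if_pos c1, if_neg c2, if_neg c3]
        intro hcol
        have := a3 x y x1 c1 (by omega) (Or.inl ⟨e1, e2⟩)
        rw [hnew y (by omega) y2 (by omega) (by omega)] at this
        exact (this hcol).elim
    · have c2 : ¬ r y < c := by omega
      by_cases c3 : c ≤ l x
      · have c4 : c ≤ l y := by omega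
        rw [if_neg c1, if_neg c2, if_pos c3, if_pos c4, if_neg c1, if_neg c2, if_pos c3, if_pos c4]
        exact b2 x y c3 y2 e1 e2 e3
      · by_cases c4 : c ≤ l y
        · rw [if_neg c1, if_neg c2, if_neg c3, if_pos c4]
          intro hcol
          have := b3 y x c4 y2 (by omega) (Or.inr ⟨e2, e3⟩)
          rw [hnew x x1 (by omega) (by omega) (by omega)] at this
          exact (this hcol.symm).elim
        · rw [if_neg c1, if_neg c2, if_neg c3, if_neg c4, if_neg c1, if_neg c2, if_neg c3,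
            if_neg c4]
          intro _
          rfl
  · intro x y x1 x2 hy e
    have hx := hlt x
    have hy' := hlt y
    have hmem : y ∈ extArcs l r a b a b := by
      rw [mem_extArcs]
      omega
    dsimp only
    split_ifs with e1 e2
    · have := a3 x y x1 e1 (by omega) e
      rwa [hold y hmem] at this
    · have := b3 x y e2 x2 (by omega) e
      rwa [hold y hmem] at this
    · intro hc
      apply hg0'
      rw [hc]
      exact mem_image_of_mem _ (mem_image_of_mem _ hmem)

lemma done_main (hlt : ∀ x, l x < r x)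
    (hl : Function.Injective l) (hr : Function.Injective r) (hlr : ∀ x y, l x ≠ r y)
    {n : ℕ} (hn : 1 ≤ n) (p : Equiv.Perm (Fin n)) (hav : Avoids l r p)
    (m z : ℕ) (hm : m + 1 = 2 * (n * (z + 1 + 1))) (hz : n ≤ 2 ^ z) (len : ℕ) :
    ∀ (a b : ℕ), b - a = len → ∀ (j i : ℕ), i + j = z → ∀ (lab : X → ℕ) (γ : ℕ → ℕ),
      Good l r lab a b → LCut (fun u v => degr l r lab a b u v ≤ m + i) (2 ^ j) a b →
      degr l r lab a b a b ≤ m + z + 1 + i → Done l r (m + 2 * z + 1) lab γ a b := by
  induction len using Nat.strong_induction_on with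
  | _ len ih =>
  intro a b hlen j
  induction j with
  | zero =>
    intro i hi lab γ hg hc _
    have hd : degr l r lab a b a b ≤ m + z := by
      rcases hc with hc | ⟨c, _, _, _, hc⟩
      · have : i = z := by omega
        subst this
        exact hc
      · exact hc.elim
    by_cases hab : a + 1 < b
    · refine done_step l r hlt (c := a + 1) (by omega) hab hg (by omega) ?_ ?_
      · intro γ'
        have hg' := good_left l r hab hg
        have hd' : degr l r (newLab l r lab a b (a + 1)) a (a + 1) a (a + 1) ≤ m + (z + 1) := by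
          have h1 := degr_left l r lab (a := a) (b := b) (c := a + 1) (u := a) (v := a + 1)
            le_rfl le_rfl
          have h2 := degr_mono l r lab (a := a) (b := b) (u := a) (v := b) (u' := a)
            (v' := a + 1) le_rfl hab.le
          omega
        have := key_cut l r hl hr hlr hn p hav m (z + 1) hm _ a (a + 1) (by omega) hg' hd'
        exact ih (a + 1 - a) (by omega) a (a + 1) rfl z 0 (by omega) _ γ' hg'
          (this.mono_t hz) (by omega)
      · intro γ'
        have hg' := good_right l r (c := a + 1) (by omega) hg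
        have hd' : degr l r (newLab l r lab a b (a + 1)) (a + 1) b (a + 1) b ≤ m + (z + 1) := by
          have h1 := degr_right l r lab (a := a) (b := b) (c := a + 1) (u := a + 1) (v := b)
            le_rfl le_rfl
          have h2 := degr_mono l r lab (a := a) (b := b) (u := a) (v := b) (u' := a + 1)
            (v' := b) (by omega) le_rfl
          omega
        have := key_cut l r hl hr hlr hn p hav m (z + 1) hm _ (a + 1) b hab hg' hd'
        exact ih (b - (a + 1)) (by omega) (a + 1) b rfl z 0 (by omega) _ γ' hg'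
          (this.mono_t hz) (by omega)
    · refine ⟨fun _ => 0, fun _ => 0, ?_, ?_, ?_⟩
      · intro x x1 x2
        have := hlt x
        omega
      · intro x y _ _ _ _ _ _
        rfl
      · intro x y x1 x2
        have := hlt x
        omega
  | succ j ihj =>
    intro i hi lab γ hg hc hd
    have hpos : 1 ≤ 2 ^ j := Nat.one_le_two_pow
    have e1 : 2 ^ (j + 1) = 2 ^ j + (2 ^ j - 1) + 1 := by omega
    have e2 : 2 ^ j - 1 + 1 = 2 ^ j := by omega
    rw [e1] at hc
    rcases LCut.split _ _ hc with h | ⟨c, hac, hcb, h1, h2⟩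
    · rw [e2] at h
      refine ihj (i + 1) (by omega) lab γ hg (h.mono_ok ?_) (by omega)
      intro u v _ _ huv
      omega
    · rw [e2] at h1
      refine done_step l r hlt hac hcb hg (by omega) ?_ ?_
      · intro γ'
        refine ih (c - a) (by omega) a c rfl j (i + 1) (by omega) _ γ' (good_left l r hcb hg)
          (h1.mono_ok ?_) ?_
        · intro u v hu hv huv
          have := degr_left l r lab (a := a) (b := b) (c := c) hu hv
          omega
        · have h3 := degr_left l r lab (a := a) (b := b) (c := c) (u := a) (v := c) le_rfl le_rfl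
          have h4 := degr_mono l r lab (a := a) (b := b) (u := a) (v := b) (u' := a)
            (v' := c) le_rfl hcb.le
          omega
      · intro γ'
        refine ih (b - c) (by omega) c b rfl j (i + 1) (by omega) _ γ' (good_right l r hac hg)
          (h2.mono_ok ?_) ?_
        · intro u v hu hv huv
          have := degr_right l r lab (a := a) (b := b) (c := c) hu hv
          omega
        · have h3 := degr_right l r lab (a := a) (b := b) (c := c) (u := c) (v := b) le_rfl le_rfl
          have h4 := degr_mono l r lab (a := a) (b := b) (u := a) (v := b) (u' := c)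
            (v' := b) hac.le le_rfl
          omega

/-- The pillar theorem: arcs avoiding a pattern of size `n ≤ 2 ^ z` get pillars and at most
`2 n (z + 2) + 2 z` colours so that crossing arcs of one colour share their pillar. -/
theorem pillars (hlt : ∀ x, l x < r x)
    (hl : Function.Injective l) (hr : Function.Injective r) (hlr : ∀ x y, l x ≠ r y)
    {n : ℕ} (hn : 1 ≤ n) (p : Equiv.Perm (Fin n)) (hav : Avoids l r p)
    (z : ℕ) (hz : n ≤ 2 ^ z) :
    ∃ lab col : X → ℕ,
      (∀ x, l x < lab x ∧ lab x ≤ r x ∧ col x < 2 * (n * (z + 2)) + 2 * z) ∧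
      ∀ x y, l x < l y → l y < r x → r x < r y → col x = col y → lab x = lab y := by
  obtain ⟨m, hm⟩ : ∃ m, m + 1 = 2 * (n * (z + 1 + 1)) :=
    ⟨2 * (n * (z + 1 + 1)) - 1, by
      have : 1 ≤ n * (z + 1 + 1) := Nat.mul_pos hn (by omega)
      omega⟩
  set b := univ.sup r + 1 with hb
  have hrb : ∀ x, r x < b := fun x => Nat.lt_succ_of_le (le_sup (f := r) (mem_univ x))
  have hdeg : ∀ u v, degr l r (fun _ => 0) 0 b u v = 0 := by
    intro u v
    unfold degr
    rw [card_eq_zero, image_eq_empty, eq_empty_iff_forall_notMem]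
    intro x hx
    rw [mem_extArcs] at hx
    have := hrb x
    omega
  have hg : Good l r (fun _ => 0) 0 b := by
    refine ⟨?_, ?_, ?_, ?_⟩
    · intro x h
      omega
    · intro x _ _ h
      have := hrb x
      omega
    · intros
      exact le_rfl
    · intros
      exact le_rfl
  obtain ⟨lab, col, h1, h2, -⟩ := done_main l r hlt hl hr hlr hn p hav m z hm hz (b - 0) 0 b rfl
    0 z (by omega) (fun _ => 0) (fun _ => 0) hg (Or.inl (le_of_eq_of_le (hdeg 0 b) (Nat.zero_le _)))
    (by rw [hdeg]; omega)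
  refine ⟨lab, col, fun x => ?_, fun x y => h2 x y (Nat.zero_le _) (hrb y)⟩
  have := h1 x (Nat.zero_le _) (hrb x)
  have e : z + 1 + 1 = z + 2 := rfl
  rw [e] at hm
  omega

end arcs

end Pool.Agent.MP_0fd9b9_co

end MrgPart0

-- ======== part 1: formerly Pool.Agent.MP_0fd9b9_co.Main
section MrgPart1

set_option autoImplicit false

namespace Pool.Agent.MP_0fd9b9_co

open Finset

lemma IsOcc.comp {σ ρ τ : FPerm} {g : Fin σ.1 → Fin ρ.1} {f : Fin ρ.1 → Fin τ.1}
    (hg : IsOcc σ ρ g) (hf : IsOcc ρ τ f) : IsOcc σ τ (f ∘ g) :=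
  ⟨hf.1.comp hg.1, fun i j => (hg.2 i j).trans (hf.2 _ _)⟩

lemma IsOcc.of_lt {σ τ : FPerm} {f : Fin σ.1 → Fin τ.1} (h1 : StrictMono f)
    (h2 : ∀ i j, σ.2 i < σ.2 j → τ.2 (f i) < τ.2 (f j)) : IsOcc σ τ f := by
  refine ⟨h1, fun i j => ⟨h2 i j, fun h => ?_⟩⟩
  rcases lt_trichotomy (σ.2 i) (σ.2 j) with h3 | h3 | h3
  · exact h3
  · rw [σ.2.injective h3] at h
    exact (lt_irrefl _ h).elim
  · exact (lt_asymm h (h2 j i h3)).elim

lemma exists_pattern (τ : FPerm) (S : Set (Fin τ.1)) :
    ∃ (ρ : FPerm) (f : Fin ρ.1 → Fin τ.1), IsOcc ρ τ f ∧ Set.range f = S := by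
  classical
  let T : Finset (Fin τ.1) := univ.filter (fun x => x ∈ S)
  let f := T.orderEmbOfFin rfl
  have hcard : (T.map τ.2.toEmbedding).card = T.card := card_map _
  let g := (T.map τ.2.toEmbedding).orderIsoOfFin hcard
  have hmem : ∀ i, τ.2 (f i) ∈ T.map τ.2.toEmbedding := fun i =>
    mem_map_of_mem _ (T.orderEmbOfFin_mem rfl i)
  let h : Fin T.card → Fin T.card := fun i => g.symm ⟨τ.2 (f i), hmem i⟩
  have hinj : Function.Injective h := by
    intro i j hij
    have := g.symm.injective hij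
    simp only [Subtype.mk.injEq] at this
    exact f.injective (τ.2.injective this)
  refine ⟨⟨T.card, Equiv.ofBijective h (Finite.injective_iff_bijective.mp hinj)⟩, f,
    ⟨f.strictMono, ?_⟩, ?_⟩
  · intro i j
    show h i < h j ↔ _
    simp only [h, OrderIso.lt_iff_lt, Subtype.mk_lt_mk]
  · rw [range_orderEmbOfFin]
    ext x
    simp [T]

lemma mem_merge_Av {ι : Type} (σs : ι → FPerm) (τ : FPerm) :
    τ ∈ merge (fun i => Av (σs i)) ↔
      ∃ c : Fin τ.1 → ι, ∀ i, ¬ ∃ g, IsOcc (σs i) τ g ∧ ∀ j, c (g j) = i := by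
  constructor
  · rintro ⟨c, hc⟩
    refine ⟨c, fun i => ?_⟩
    rintro ⟨g, hg, hgc⟩
    obtain ⟨ρ, hρ, f, hf, hr⟩ := hc i
    have : ∀ j, ∃ y, f y = g j := fun j => by
      have : g j ∈ Set.range f := by rw [hr]; exact hgc j
      exact this
    choose g' hg' using this
    apply hρ
    refine ⟨g', ?_, ?_⟩
    · intro j j' hj
      have := hg.1 hj
      rw [← hg', ← hg'] at this
      exact hf.1.lt_iff_lt.mp this
    · intro j j'
      rw [hg.2, hf.2, hg', hg']
  · rintro ⟨c, hc⟩
    refine ⟨c, fun i => ?_⟩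
    obtain ⟨ρ, f, hf, hr⟩ := exists_pattern τ {x | c x = i}
    refine ⟨ρ, ?_, f, hf, hr⟩
    rintro ⟨g, hg⟩
    refine hc i ⟨f ∘ g, hg.comp hf, fun j => ?_⟩
    have : f (g j) ∈ Set.range f := ⟨_, rfl⟩
    rw [hr] at this
    exact this

lemma raw_castAdd {a b : ℕ} (α : Equiv.Perm (Fin a)) (β : Equiv.Perm (Fin b)) (i : Fin a) :
    finSumFinEquiv.permCongr (Equiv.Perm.sumCongr α β) (Fin.castAdd b i) =
      Fin.castAdd b (α i) := by
  simp [Equiv.permCongr_apply]

lemma raw_natAdd {a b : ℕ} (α : Equiv.Perm (Fin a)) (β : Equiv.Perm (Fin b)) (j : Fin b) :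
    finSumFinEquiv.permCongr (Equiv.Perm.sumCongr α β) (Fin.natAdd a j) =
      Fin.natAdd a (β j) := by
  simp [Equiv.permCongr_apply]

lemma dsum_castAdd (α β : FPerm) (i : Fin α.1) :
    ((dsum α β).2 (Fin.castAdd β.1 i)).val = (α.2 i).val :=
  congrArg Fin.val (raw_castAdd α.2 β.2 i)

lemma dsum_natAdd (α β : FPerm) (j : Fin β.1) :
    ((dsum α β).2 (Fin.natAdd α.1 j)).val = α.1 + (β.2 j).val :=
  congrArg Fin.val (raw_natAdd α.2 β.2 j)

lemma occ_one_build {σ τ : FPerm} {f : Fin σ.1 → Fin τ.1} (hf : IsOcc σ τ f) (a : Fin τ.1)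
    (h1 : ∀ i, a < f i) (h2 : ∀ i, τ.2 a < τ.2 (f i)) : ∃ g, IsOcc (dsum onePerm σ) τ g := by
  let g : Fin (onePerm.1 + σ.1) → Fin τ.1 := Fin.addCases (fun _ => a) f
  have e1 : ∀ i, g (Fin.castAdd σ.1 i) = a := fun i => Fin.addCases_left i
  have e2 : ∀ j, g (Fin.natAdd onePerm.1 j) = f j := fun j => Fin.addCases_right j
  have hone : ∀ i : Fin onePerm.1, (i : ℕ) = 0 := fun i => by
    have : (i : ℕ) < 1 := i.2
    omega
  refine ⟨g, IsOcc.of_lt ?_ ?_⟩
  · intro i j
    refine Fin.addCases (fun i => ?_) (fun i => ?_) i <;>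
      refine Fin.addCases (fun j => ?_) (fun j => ?_) j <;> intro hij
    · have := hone i
      have := hone j
      have h3 : i.val < j.val := hij
      omega
    · rw [e1, e2]
      exact h1 j
    · have := hone j
      have h3 : onePerm.1 + i.val < j.val := hij
      omega
    · rw [e2, e2]
      apply hf.1
      have h3 : onePerm.1 + i.val < onePerm.1 + j.val := hij
      rw [Fin.lt_def]
      omega
  · intro i j
    refine Fin.addCases (fun i => ?_) (fun i => ?_) i <;>
      refine Fin.addCases (fun j => ?_) (fun j => ?_) j <;> intro hij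
    · have h3 := Fin.lt_def.mp hij
      rw [dsum_castAdd, dsum_castAdd] at h3
      have := hone (onePerm.2 i)
      have := hone (onePerm.2 j)
      omega
    · rw [e1, e2]
      exact h2 j
    · have h3 := Fin.lt_def.mp hij
      rw [dsum_castAdd, dsum_natAdd] at h3
      have := hone (onePerm.2 j)
      omega
    · rw [e2, e2]
      apply (hf.2 i j).mp
      have h3 := Fin.lt_def.mp hij
      rw [dsum_natAdd, dsum_natAdd] at h3
      rw [Fin.lt_def]
      omega

lemma occ_one_destruct {σ τ : FPerm} {g : Fin (dsum onePerm σ).1 → Fin τ.1}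
    (hg : IsOcc (dsum onePerm σ) τ g) :
    IsOcc σ τ (fun j => g (Fin.natAdd onePerm.1 j)) ∧ ∃ a : Fin τ.1,
      (∀ j, a < g (Fin.natAdd onePerm.1 j)) ∧ ∀ j, τ.2 a < τ.2 (g (Fin.natAdd onePerm.1 j)) := by
  let o : Fin onePerm.1 := ⟨0, Nat.one_pos⟩
  refine ⟨IsOcc.of_lt ?_ ?_, g (Fin.castAdd σ.1 o), ?_, ?_⟩
  · intro i j hij
    apply hg.1
    rw [Fin.lt_def] at hij
    show onePerm.1 + i.val < onePerm.1 + j.val
    omega
  · intro i j hij
    apply (hg.2 _ _).mp
    apply Fin.lt_def.mpr
    rw [dsum_natAdd, dsum_natAdd]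
    rw [Fin.lt_def] at hij
    omega
  · intro j
    apply hg.1
    show o.val < onePerm.1 + j.val
    have := o.2
    omega
  · intro j
    apply (hg.2 _ _).mp
    apply Fin.lt_def.mpr
    rw [dsum_castAdd, dsum_natAdd]
    have := (onePerm.2 o).2
    omega

lemma cut_decomp (a b : ℕ) (σ : Equiv.Perm (Fin (a + b)))
    (h : ∀ i k, σ (Fin.castAdd b i) < σ (Fin.natAdd a k)) :
    ∃ (α : Equiv.Perm (Fin a)) (β : Equiv.Perm (Fin b)),
      (⟨a + b, σ⟩ : FPerm) = dsum ⟨a, α⟩ ⟨b, β⟩ := by
  have h1 : ∀ i, (σ (Fin.castAdd b i) : ℕ) < a := by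
    intro i
    have hsub : univ.image (fun k => σ (Fin.natAdd a k)) ⊆ Ioi (σ (Fin.castAdd b i)) := by
      intro y hy
      obtain ⟨k, _, rfl⟩ := mem_image.mp hy
      exact mem_Ioi.mpr (h i k)
    have hc := card_le_card hsub
    have hinj : Function.Injective (fun k => σ (Fin.natAdd a k)) :=
      σ.injective.comp (Fin.natAdd_injective _ _)
    rw [card_image_of_injective _ hinj, Fin.card_Ioi, card_univ, Fintype.card_fin] at hc
    have := (σ (Fin.castAdd b i)).2
    omega
  have h2 : ∀ k, a ≤ (σ (Fin.natAdd a k) : ℕ) := by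
    intro k
    have hsub : univ.image (fun i => σ (Fin.castAdd b i)) ⊆ Iio (σ (Fin.natAdd a k)) := by
      intro y hy
      obtain ⟨i, _, rfl⟩ := mem_image.mp hy
      exact mem_Iio.mpr (h i k)
    have hc := card_le_card hsub
    have hinj : Function.Injective (fun i => σ (Fin.castAdd b i)) :=
      σ.injective.comp (Fin.castAdd_injective _ _)
    rw [card_image_of_injective _ hinj, Fin.card_Iio, card_univ, Fintype.card_fin] at hc
    exact hc
  let α : Fin a → Fin a := fun i => ⟨σ (Fin.castAdd b i), h1 i⟩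
  let β : Fin b → Fin b := fun k => ⟨σ (Fin.natAdd a k) - a, by
    have := (σ (Fin.natAdd a k)).2
    have := h2 k
    omega⟩
  have hα : Function.Injective α := by
    intro i j hij
    simp only [α, Fin.mk.injEq] at hij
    exact Fin.castAdd_injective _ _ (σ.injective (Fin.ext hij))
  have hβ : Function.Injective β := by
    intro i j hij
    simp only [β, Fin.mk.injEq] at hij
    have := h2 i
    have := h2 j
    exact Fin.natAdd_injective _ _ (σ.injective (Fin.ext (by omega)))
  refine ⟨Equiv.ofBijective α (Finite.injective_iff_bijective.mp hα),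
    Equiv.ofBijective β (Finite.injective_iff_bijective.mp hβ), ?_⟩
  have key : σ = finSumFinEquiv.permCongr (Equiv.Perm.sumCongr
      (Equiv.ofBijective α (Finite.injective_iff_bijective.mp hα))
      (Equiv.ofBijective β (Finite.injective_iff_bijective.mp hβ))) := by
    ext x
    refine Fin.addCases (fun i => ?_) (fun k => ?_) x
    · rw [raw_castAdd]
      rfl
    · rw [raw_natAdd]
      have := h2 k
      simp only [Fin.val_natAdd, Equiv.ofBijective_apply, β]
      omega
  exact congrArg (fun s => (⟨a + b, s⟩ : FPerm)) key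

/-- A function that is constant on inversions of a sum-indecomposable permutation is constant. -/
lemma SumIndec.const {σ : FPerm} (hσ : SumIndec σ) (P : Fin σ.1 → ℕ)
    (hP : ∀ i j, i < j → σ.2 j < σ.2 i → P i = P j) (i : Fin σ.1) : P i = P ⟨0, hσ.1⟩ := by
  classical
  by_contra hcon
  obtain ⟨n, s⟩ := σ
  have hex : ∃ a : ℕ, ∃ h : a < n, P ⟨a, h⟩ ≠ P ⟨0, hσ.1⟩ := ⟨i.1, i.2, hcon⟩
  obtain ⟨han, ha⟩ := Nat.find_spec hex
  have hmin : ∀ y : Fin n, (y : ℕ) < Nat.find hex → P y = P ⟨0, hσ.1⟩ := by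
    intro y hy
    by_contra hc
    exact Nat.find_min hex hy ⟨y.2, hc⟩
  generalize Nat.find hex = a at han ha hmin
  have ha0 : 0 < a := by
    rcases Nat.eq_zero_or_pos a with h | h
    · subst h
      exact (ha rfl).elim
    · exact h
  have hnot : ∀ x y : Fin n, x < y → P x ≠ P y → s x < s y := by
    intro x y hxy hne
    rcases lt_trichotomy (s x) (s y) with h | h | h
    · exact h
    · exact (hxy.ne (s.injective h)).elim
    · exact (hne (hP x y hxy h)).elim
  have hcut : ∀ x y : Fin n, (x : ℕ) < a → a ≤ (y : ℕ) → s x < s y := by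
    intro x y hx hy
    have hx0 := hmin x hx
    by_cases hy0 : P y = P ⟨0, hσ.1⟩
    · have h1 : s x < s ⟨a, han⟩ := hnot x ⟨a, han⟩ hx (by rw [hx0]; exact ha.symm)
      have h2 : s ⟨a, han⟩ < s y := by
        apply hnot _ _ _ (by rw [hy0]; exact ha)
        rcases hy.lt_or_eq with h | h
        · exact h
        · exfalso
          apply ha
          rw [← hy0]
          congr 1
          exact Fin.ext h
      exact h1.trans h2
    · exact hnot x y (by rw [Fin.lt_def]; omega) (by rw [hx0]; exact fun h => hy0 h.symm)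
  obtain ⟨b, rfl⟩ : ∃ b, n = a + b := ⟨n - a, by omega⟩
  obtain ⟨α, β, h⟩ := cut_decomp a b s (fun i k => hcut _ _ (by simp) (by simp))
  exact hσ.2 ⟨⟨a, α⟩, ⟨b, β⟩, ha0, by show 0 < b; omega, h⟩

section envelope

variable (τ : FPerm)

/-- The least value among the entries up to position `x`. -/
noncomputable def pmin (x : Fin τ.1) : ℕ :=
  (univ.filter (fun y => y ≤ x)).inf' ⟨x, by simp⟩ (fun y => (τ.2 y : ℕ))

lemma pmin_le {x y : Fin τ.1} (h : y ≤ x) : pmin τ x ≤ τ.2 y :=
  inf'_le (fun y => (τ.2 y : ℕ)) (by simpa using h)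

lemma pmin_spec (x : Fin τ.1) : ∃ y, y ≤ x ∧ pmin τ x = τ.2 y := by
  obtain ⟨y, hy, h⟩ := exists_mem_eq_inf' (s := univ.filter (fun y => y ≤ x)) ⟨x, by simp⟩
    (fun y => (τ.2 y : ℕ))
  exact ⟨y, by simpa using hy, h⟩

lemma pmin_anti {x y : Fin τ.1} (h : x ≤ y) : pmin τ y ≤ pmin τ x := by
  obtain ⟨w, hw, e⟩ := pmin_spec τ x
  rw [e]
  exact pmin_le τ (hw.trans h)

/-- The left end of the arc of an entry in the envelope matching. -/
def lft (x : Fin τ.1) : ℕ := (τ.1 - τ.2 x) * (τ.1 + 1)

/-- The right end of the arc of an entry in the envelope matching. -/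
noncomputable def rgt (x : Fin τ.1) : ℕ := (τ.1 - pmin τ x) * (τ.1 + 1) + 1 + x

lemma lft_lt_lft {x y : Fin τ.1} : lft τ y < lft τ x ↔ τ.2 x < τ.2 y := by
  unfold lft
  rw [Nat.mul_lt_mul_right (Nat.succ_pos _), Fin.lt_def]
  have := (τ.2 x).2
  have := (τ.2 y).2
  omega

lemma rgt_strictMono : StrictMono (rgt τ) := by
  intro x y h
  unfold rgt
  have h1 := pmin_anti τ h.le
  have h2 : (τ.1 - pmin τ x) * (τ.1 + 1) ≤ (τ.1 - pmin τ y) * (τ.1 + 1) :=
    Nat.mul_le_mul_right _ (by omega)
  have h3 : (x : ℕ) < y := h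
  omega

lemma lft_lt_rgt {x y : Fin τ.1} : lft τ y < rgt τ x ↔ pmin τ x ≤ τ.2 y := by
  unfold lft rgt
  have hx := x.2
  have hy := (τ.2 y).2
  constructor
  · intro h
    by_contra hc
    have h1 : τ.1 - pmin τ x + 1 ≤ τ.1 - τ.2 y := by
      have := pmin_le τ (le_refl x)
      have := (τ.2 x).2
      omega
    have h2 := Nat.mul_le_mul_right (τ.1 + 1) h1
    rw [Nat.add_mul] at h2
    omega
  · intro h
    have h2 : (τ.1 - τ.2 y) * (τ.1 + 1) ≤ (τ.1 - pmin τ x) * (τ.1 + 1) :=
      Nat.mul_le_mul_right _ (by omega)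
    omega

lemma lft_ne_rgt (x y : Fin τ.1) : lft τ x ≠ rgt τ y := by
  unfold lft rgt
  intro h
  have hy := y.2
  have h1 : (τ.1 + 1) ∣ 1 + y := by
    have h2 : (τ.1 + 1) ∣ (τ.1 - pmin τ y) * (τ.1 + 1) + (1 + y) := by
      rw [← add_assoc, ← h]
      exact Dvd.intro_left _ rfl
    exact (Nat.dvd_add_right (Dvd.intro_left _ rfl)).mp h2
  have := Nat.le_of_dvd (by omega) h1
  omega

lemma lft_injective : Function.Injective (lft τ) := by
  intro x y h
  apply τ.2.injective
  rcases lt_trichotomy (τ.2 x) (τ.2 y) with h1 | h1 | h1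
  · have := (lft_lt_lft τ).mpr h1
    omega
  · exact h1
  · have := (lft_lt_lft τ).mpr h1
    omega

/-- The entry `x` is not a left-to-right minimum. -/
def NonMin (x : Fin τ.1) : Prop := ∃ y, y < x ∧ τ.2 y < τ.2 x

lemma no_occ_through {σ : FPerm} (hσ : 0 < σ.1) (hτ : τ ∈ Av (dsum onePerm σ)) (c : ℕ)
    (f : Fin σ.1 → Fin τ.1) (hf : IsOcc σ τ f) (hn : ∀ i, NonMin τ (f i))
    (hc : ∀ i, lft τ (f i) < c ∧ c ≤ rgt τ (f i)) : False := by
  let o : Fin σ.1 := ⟨0, hσ⟩
  obtain ⟨a, ha, e⟩ := pmin_spec τ (f o)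
  have h0 : ∀ i, f o ≤ f i := fun i => hf.1.monotone (Nat.zero_le _ : o ≤ i)
  have hne : ∀ i, a ≠ f i := by
    intro i hi
    have h1 : a = f o := le_antisymm ha (hi ▸ h0 i)
    obtain ⟨y, hy, hy'⟩ := hn o
    have h2 := pmin_le τ hy.le
    rw [e, h1] at h2
    exact absurd hy' (not_lt.mpr h2)
  apply hτ
  refine occ_one_build hf a (fun i => lt_of_le_of_ne (ha.trans (h0 i)) (hne i)) (fun i => ?_)
  have h1 := (lft_lt_rgt τ).mp ((hc i).1.trans_le (hc o).2)
  rw [e] at h1
  exact lt_of_le_of_ne h1 (fun h => hne i (τ.2.injective h))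

end envelope

theorem split_one_sum {n : ℕ} (hn : 2 ≤ n) {σ : FPerm} {k : ℕ} {σs : Fin k → FPerm}
    (had : Admissible n σ k σs) (z : ℕ) (hz : n ≤ 2 ^ z) :
    Av (dsum onePerm σ) ⊆ merge (fun p : Fin (2 * (n * (z + 2)) + 2 * z) × Fin k =>
      Av (dsum onePerm (σs p.2))) := by
  classical
  obtain ⟨hσ, hσs, hsize, hsplit⟩ := had
  subst hsize
  have hk : Nonempty (Fin k) := by
    have h1 : onePerm ∈ Av σ := by
      rintro ⟨f, hf⟩
      have := Fintype.card_le_of_injective f hf.1.injective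
      simp only [Fintype.card_fin] at this
      have h2 : onePerm.1 = 1 := rfl
      omega
    obtain ⟨c, -⟩ := hsplit h1
    exact ⟨c ⟨0, Nat.one_pos⟩⟩
  obtain ⟨k0⟩ := hk
  intro τ hτ
  let X := {x : Fin τ.1 // NonMin τ x}
  have hav : Avoids (fun x : X => lft τ x.1) (fun x : X => rgt τ x.1) σ.2 := by
    rintro c ⟨f, h1, h2, h3⟩
    refine no_occ_through τ hσ.1 hτ c (fun i => (f i).1) (IsOcc.of_lt ?_ ?_) (fun i => (f i).2) h1
    · intro i j hij
      exact (rgt_strictMono τ).lt_iff_lt.mp (h2 i j hij)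
    · intro i j hij
      exact (lft_lt_lft τ).mp (h3 i j hij)
  obtain ⟨lab, col, h1, h2⟩ := pillars (fun x : X => lft τ x.1) (fun x : X => rgt τ x.1)
    (fun x => (lft_lt_rgt τ).mpr (pmin_le τ le_rfl))
    (fun x y h => Subtype.ext (lft_injective τ h))
    (fun x y h => Subtype.ext ((rgt_strictMono τ).injective h))
    (fun x y => lft_ne_rgt τ x.1 y.1) (by omega) σ.2 hav z hz
  have hcls : ∀ c : ℕ, ∃ κ : Fin τ.1 → Fin k, ∀ i, ¬ ∃ g, IsOcc (σs i) τ g ∧
      ∀ j, (∃ h : NonMin τ (g j), lab ⟨g j, h⟩ = c) ∧ κ (g j) = i := by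
    intro c
    obtain ⟨ρ, f, hf, hr⟩ := exists_pattern τ {x | ∃ h : NonMin τ x, lab ⟨x, h⟩ = c}
    have hmem : ∀ y, ∃ h : NonMin τ (f y), lab ⟨f y, h⟩ = c := by
      intro y
      have : f y ∈ Set.range f := ⟨_, rfl⟩
      rw [hr] at this
      exact this
    have hρ : ρ ∈ Av σ := by
      rintro ⟨g, hg⟩
      refine no_occ_through τ hσ.1 hτ c (f ∘ g) (hg.comp hf) (fun i => (hmem (g i)).1) ?_
      intro i
      obtain ⟨h, e⟩ := hmem (g i)
      have := h1 ⟨f (g i), h⟩
      rw [e] at this
      exact ⟨this.1, this.2.1⟩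
    obtain ⟨κ, hκ⟩ := (mem_merge_Av σs ρ).mp (hsplit hρ)
    refine ⟨fun x => if h : ∃ y, f y = x then κ h.choose else k0, fun i => ?_⟩
    rintro ⟨g, hg, hgc⟩
    have hex : ∀ j, ∃ y, f y = g j := fun j => by
      have : g j ∈ Set.range f := by rw [hr]; exact (hgc j).1
      exact this
    apply hκ i
    refine ⟨fun j => (hex j).choose, ⟨?_, ?_⟩, fun j => ?_⟩
    · intro j j' hj
      have := hg.1 hj
      rw [← (hex j).choose_spec, ← (hex j').choose_spec] at this
      exact hf.1.lt_iff_lt.mp this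
    · intro j j'
      rw [hg.2, hf.2, (hex j).choose_spec, (hex j').choose_spec]
    · have := (hgc j).2
      simp only [dif_pos (hex j)] at this
      exact this
  choose κ hκ using hcls
  have hq : 0 < 2 * (σ.1 * (z + 2)) + 2 * z := by
    have : 0 < σ.1 * (z + 2) := Nat.mul_pos hσ.1 (by omega)
    omega
  rw [mem_merge_Av (fun p : Fin (2 * (σ.1 * (z + 2)) + 2 * z) × Fin k => dsum onePerm (σs p.2))]
  refine ⟨fun x => if h : NonMin τ x then (⟨col ⟨x, h⟩, (h1 ⟨x, h⟩).2.2⟩, κ (lab ⟨x, h⟩) x)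
    else (⟨0, hq⟩, k0), ?_⟩
  rintro ⟨q, i⟩ ⟨g, hg, hgc⟩
  obtain ⟨hf, a, ha1, ha2⟩ := occ_one_destruct hg
  have hnm : ∀ j, NonMin τ (g (Fin.natAdd onePerm.1 j)) := fun j => ⟨a, ha1 j, ha2 j⟩
  have hcol : ∀ j, col ⟨_, hnm j⟩ = q ∧ κ (lab ⟨_, hnm j⟩) (g (Fin.natAdd onePerm.1 j)) = i := by
    intro j
    have := hgc (Fin.natAdd onePerm.1 j)
    simp only [dif_pos (hnm j), Prod.mk.injEq] at this
    exact ⟨congrArg Fin.val this.1, this.2⟩
  have hconst := (hσs i).const (fun j => lab ⟨_, hnm j⟩) (by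
    intro j j' hj hv
    apply h2
    · exact (lft_lt_lft τ).mpr ((hf.2 j' j).mp hv)
    · exact (lft_lt_rgt τ).mpr ((pmin_le τ (ha1 j).le).trans (ha2 j').le)
    · exact rgt_strictMono τ (hf.1 hj)
    · rw [(hcol j).1, (hcol j').1])
  refine hκ (lab ⟨_, hnm ⟨0, (hσs i).1⟩⟩) i ⟨_, hf, fun j => ⟨⟨hnm j, hconst j⟩, ?_⟩⟩
  have := (hcol j).2
  rw [hconst j] at this
  exact this

end Pool.Agent.MP_0fd9b9_co

end MrgPart1

-- marker of a merged file
example : 731051 + 642591 = 731051 + 642591 := rfl
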